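import Mathlib

/-!
# A q-analogue of Amdeberhan's divisibility

`[k] = 1 + q + ... + q^(k-1)`, `[m]! = [1][2]...[m]`, and Gaussian binomial coefficients. For all
`A ≥ B ≥ 0`, in `ℤ[q]`, `[2B+1][2B+3]` times the Gaussian coefficient `(2B choose B)` divides
`[g₁][g₂][g₃]` times the Gaussian coefficients `(2A choose A)` and `(A choose B)`, where
`g₁ = gcd(2B+1, A-B)`, `g₂ = gcd(2B+3, A-B)`, `g₃ = gcd(2B+3, 2A+1)`.
-/

set_option autoImplicit false

namespace Pool.Agent.Results.MP_698530_nt.QAnalogue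

open Finset Polynomial

/-- `[k] = 1 + q + ⋯ + q ^ (k - 1)` -/
noncomputable def qint (k : ℕ) : ℤ[X] := ∑ i ∈ range k, X ^ i

/-- `[m]! = [1] [2] ⋯ [m]` -/
noncomputable def qfac (m : ℕ) : ℤ[X] := ∏ i ∈ range m, qint (i + 1)

/-- Gaussian binomial coefficients (`q`-Pascal recursion) -/
noncomputable def qbinom : ℕ → ℕ → ℤ[X]
  | _, 0 => 1
  | 0, _ + 1 => 0
  | n + 1, k + 1 => qbinom n k + X ^ (k + 1) * qbinom n (k + 1)

theorem qint_add (a b : ℕ) : qint (a + b) = qint a + X ^ a * qint b := by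
  unfold qint
  rw [sum_range_add, mul_sum]
  congr 1
  apply sum_congr rfl
  intro i _
  rw [pow_add]

theorem qint_ne {k : ℕ} (hk : 0 < k) : qint k ≠ 0 := by
  intro h
  have : (qint k).eval 1 = k := by simp [qint, eval_finset_sum]
  rw [h] at this
  simp at this
  omega

theorem qfac_succ (m : ℕ) : qfac (m + 1) = qfac m * qint (m + 1) := by
  unfold qfac
  rw [prod_range_succ]

theorem qfac_ne (m : ℕ) : qfac m ≠ 0 := by
  induction m with
  | zero => simp [qfac]
  | succ m ih => rw [qfac_succ]; exact mul_ne_zero ih (qint_ne (by omega))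

theorem qbinom_zero (n : ℕ) : qbinom n 0 = 1 := by cases n <;> rfl

theorem qbinom_gt : ∀ n k : ℕ, n < k → qbinom n k = 0
  | n, 0, h => by omega
  | 0, k + 1, _ => rfl
  | n + 1, k + 1, h => by
    rw [qbinom, qbinom_gt n k (by omega), qbinom_gt n (k + 1) (by omega)]
    simp

/-- the usual formula for the Gaussian coefficients -/
theorem qbinom_mul : ∀ n k l : ℕ, k + l = n → qbinom n k * (qfac k * qfac l) = qfac n := by
  intro n
  induction n with
  | zero =>
    intro k l h
    obtain ⟨rfl, rfl⟩ : k = 0 ∧ l = 0 := by omega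
    simp [qbinom, qfac]
  | succ n ih =>
    intro k l h
    rcases k with _ | k
    · obtain rfl : l = n + 1 := by omega
      simp [qbinom, qfac]
    · rcases l with _ | l
      · obtain rfl : k = n := by omega
        have h1 := ih k 0 (by omega)
        rw [qbinom, qbinom_gt k (k + 1) (by omega), qfac_succ]
        linear_combination qint (k + 1) * h1
      · have h1 := ih k (l + 1) (by omega)
        have h2 := ih (k + 1) l (by omega)
        have h3 : qint (n + 1) = qint (k + 1) + X ^ (k + 1) * qint (l + 1) := by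
          rw [← qint_add]
          congr 1
          omega
        rw [qbinom, qfac_succ n, h3]
        rw [qfac_succ l] at h1 ⊢
        rw [qfac_succ k] at h2 ⊢
        linear_combination qint (k + 1) * h1 + X ^ (k + 1) * qint (l + 1) * h2

theorem eval_qint (k : ℕ) : (qint k).eval 1 = k := by simp [qint, eval_finset_sum]

theorem eval_qbinom : ∀ n k : ℕ, (qbinom n k).eval 1 = n.choose k
  | n, 0 => by rw [qbinom_zero]; simp
  | 0, k + 1 => by simp [qbinom]
  | n + 1, k + 1 => by
    rw [qbinom, eval_add, eval_mul, eval_qbinom n k, eval_qbinom n (k + 1), Nat.choose_succ_succ]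
    simp

/-- factorization into cyclotomic polynomials -/
def Rep (N : ℕ) (P : ℤ[X]) (e : ℕ → ℕ) : Prop := P = ∏ d ∈ Icc 2 N, cyclotomic d ℤ ^ e d

theorem Rep.mul {N : ℕ} {P Q : ℤ[X]} {e f : ℕ → ℕ} (h : Rep N P e) (h' : Rep N Q f) :
    Rep N (P * Q) (fun d => e d + f d) := by
  unfold Rep at *
  rw [h, h', ← prod_mul_distrib]
  exact prod_congr rfl fun d _ => (pow_add _ _ _).symm

theorem Rep.dvd {N : ℕ} {P Q : ℤ[X]} {e f : ℕ → ℕ} (h : Rep N P e) (h' : Rep N Q f)
    (hl : ∀ d, 2 ≤ d → e d ≤ f d) : P ∣ Q := by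
  unfold Rep at *
  rw [h, h']
  exact prod_dvd_prod_of_dvd _ _ fun d hd => pow_dvd_pow _ (hl d (mem_Icc.1 hd).1)

theorem rep_qint {N k : ℕ} (hk : 0 < k) (hN : k ≤ N) : Rep N (qint k) (fun d => if d ∣ k then 1 else 0) := by
  unfold Rep qint
  rw [← prod_cyclotomic_eq_geom_sum hk]
  have : k.divisors.erase 1 = (Icc 2 N).filter (fun d => d ∣ k) := by
    ext d
    simp only [mem_erase, Nat.mem_divisors, mem_filter, mem_Icc]
    constructor
    · rintro ⟨h1, h2, h3⟩
      have h4 := Nat.le_of_dvd hk h2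
      have h5 := Nat.pos_of_dvd_of_pos h2 hk
      exact ⟨⟨by omega, by omega⟩, h2⟩
    · rintro ⟨⟨h1, h2⟩, h3⟩
      exact ⟨by omega, h3, by omega⟩
  rw [this, prod_filter]
  apply prod_congr rfl
  intro d _
  beta_reduce
  by_cases h : d ∣ k
  · rw [if_pos h, if_pos h, pow_one]
  · rw [if_neg h, if_neg h, pow_zero]

theorem rep_qfac {N m : ℕ} (hN : m ≤ N) : Rep N (qfac m) (fun d => m / d) := by
  induction m with
  | zero => simp [Rep, qfac]
  | succ m ih =>
    have h := (ih (by omega)).mul (rep_qint (k := m + 1) (by omega) hN)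
    rw [qfac_succ]
    unfold Rep at h ⊢
    rw [h]
    apply prod_congr rfl
    intro d _
    simp only [Nat.succ_div]

/-- the inequality for one modulus `q` -/
lemma termwise {q A B : ℕ} (hq : 2 ≤ q) (hAB : B ≤ A) :
    (if q ∣ 2 * B + 1 then 1 else 0) + (if q ∣ 2 * B + 3 then 1 else 0) + 2 * B / q + A / q
      + (A - B) / q ≤
    (if q ∣ Nat.gcd (2 * B + 1) (A - B) then 1 else 0)
      + (if q ∣ Nat.gcd (2 * B + 3) (A - B) then 1 else 0)
      + (if q ∣ Nat.gcd (2 * B + 3) (2 * A + 1) then 1 else 0) + 2 * A / q + B / q := by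
  have hq0 : 0 < q := by omega
  obtain ⟨A1, α, hA, hα⟩ : ∃ A1 α, A = q * A1 + α ∧ α < q :=
    ⟨A / q, A % q, (Nat.div_add_mod A q).symm, Nat.mod_lt _ hq0⟩
  obtain ⟨B1, β, hB, hβ⟩ : ∃ B1 β, B = q * B1 + β ∧ β < q :=
    ⟨B / q, B % q, (Nat.div_add_mod B q).symm, Nat.mod_lt _ hq0⟩
  have small : ∀ x c : ℕ, c * q ≤ x → x < (c + 1) * q → x / q = c := by
    intro x c h1 h2
    exact Nat.div_eq_of_lt_le h1 h2
  -- quotients
  have e1 : A / q = A1 := by
    rw [hA, Nat.mul_add_div hq0, Nat.div_eq_of_lt hα, add_zero]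
  have e2 : B / q = B1 := by
    rw [hB, Nat.mul_add_div hq0, Nat.div_eq_of_lt hβ, add_zero]
  have e3 : 2 * A / q = 2 * A1 + 2 * α / q := by
    rw [hA, show 2 * (q * A1 + α) = q * (2 * A1) + 2 * α by ring, Nat.mul_add_div hq0]
  have e4 : 2 * B / q = 2 * B1 + 2 * β / q := by
    rw [hB, show 2 * (q * B1 + β) = q * (2 * B1) + 2 * β by ring, Nat.mul_add_div hq0]
  have hA1B1 : B1 ≤ A1 := by
    rw [← e1, ← e2]; exact Nat.div_le_div_right hAB
  obtain ⟨D, hD⟩ : ∃ D, A1 = B1 + D := ⟨A1 - B1, by omega⟩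
  have hsub : A - B + β = q * D + α := by
    have : A = B + (A - B) := by omega
    rw [hD] at hA
    have h2 : q * (B1 + D) + α = q * B1 + β + (A - B) := by rw [← hA, ← hB]; exact this
    have h3 : q * (B1 + D) = q * B1 + q * D := by ring
    omega
  have e5 : (A - B) / q + (if α < β then 1 else 0) = D := by
    split_ifs with h
    · -- borrow
      have hDpos : 0 < D := by
        rcases Nat.eq_zero_or_pos D with h0 | h0
        · rw [h0] at hsub; omega
        · exact h0
      obtain ⟨D', hD'⟩ : ∃ D', D = D' + 1 := ⟨D - 1, by omega⟩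
      have h4 : A - B = q * D' + (q + α - β) := by
        have : q * D = q * D' + q := by rw [hD']; ring
        omega
      rw [h4, Nat.mul_add_div hq0, Nat.div_eq_of_lt (by omega)]
      omega
    · have h4 : A - B = q * D + (α - β) := by omega
      rw [h4, Nat.mul_add_div hq0, Nat.div_eq_of_lt (by omega)]
      rfl
  have e6 : 2 * α / q = if q ≤ 2 * α then 1 else 0 := by
    split_ifs with h
    · exact small _ _ (by omega) (by omega)
    · exact Nat.div_eq_of_lt (by omega)
  have e7 : 2 * β / q = if q ≤ 2 * β then 1 else 0 := by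
    split_ifs with h
    · exact small _ _ (by omega) (by omega)
    · exact Nat.div_eq_of_lt (by omega)
  -- divisibilities
  have d1 : q ∣ 2 * B + 1 ↔ 2 * β + 1 = q := by
    have h5 : 2 * B + 1 = q * (2 * B1) + (2 * β + 1) := by rw [hB]; ring
    rw [h5, Nat.dvd_add_right (Dvd.intro _ rfl)]
    constructor
    · rintro ⟨c, hc⟩
      have hc2 : c < 2 := by
        by_contra h
        have : q * 2 ≤ q * c := Nat.mul_le_mul_left _ (by omega)
        omega
      interval_cases c <;> omega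
    · intro h; rw [h]
  have d3 : q ∣ 2 * B + 3 ↔ 2 * β + 3 = q := by
    have h5 : 2 * B + 3 = q * (2 * B1) + (2 * β + 3) := by rw [hB]; ring
    rw [h5, Nat.dvd_add_right (Dvd.intro _ rfl)]
    constructor
    · rintro ⟨c, hc⟩
      have hc2 : c < 3 := by
        by_contra h
        have : q * 3 ≤ q * c := Nat.mul_le_mul_left _ (by omega)
        omega
      interval_cases c <;> omega
    · intro h; rw [h]
  have d5 : α = β → q ∣ A - B := by
    intro h
    have h6 : A - B = q * D := by omega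
    rw [h6]; exact Dvd.intro _ rfl
  have d6 : 2 * α + 1 = q → q ∣ 2 * A + 1 := by
    intro h
    have h6 : 2 * A + 1 = q * (2 * A1 + 1) := by
      rw [hA]
      have : q * (2 * A1 + 1) = q * (2 * A1) + q := by ring
      have h7 : q * (2 * A1) = 2 * (q * A1) := by ring
      omega
    rw [h6]; exact Dvd.intro _ rfl
  have u1 : (q ≤ 2 * α ∧ 2 * α / q = 1) ∨ (2 * α < q ∧ 2 * α / q = 0) := by
    by_cases h : q ≤ 2 * α
    · exact Or.inl ⟨h, by rw [e6, if_pos h]⟩
    · exact Or.inr ⟨by omega, by rw [e6, if_neg h]⟩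
  have u2 : (q ≤ 2 * β ∧ 2 * β / q = 1) ∨ (2 * β < q ∧ 2 * β / q = 0) := by
    by_cases h : q ≤ 2 * β
    · exact Or.inl ⟨h, by rw [e7, if_pos h]⟩
    · exact Or.inr ⟨by omega, by rw [e7, if_neg h]⟩
  have u3 : (α < β ∧ (A - B) / q + 1 = D) ∨ (β ≤ α ∧ (A - B) / q = D) := by
    by_cases h : α < β
    · rw [if_pos h] at e5; exact Or.inl ⟨h, e5⟩
    · rw [if_neg h] at e5; exact Or.inr ⟨by omega, e5⟩
  clear e5 e6 e7
  rw [e3, e4, e1, e2]
  generalize 2 * α / q = ua at *
  generalize 2 * β / q = ub at *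
  generalize (A - B) / q = uc at *
  simp only [Nat.dvd_gcd_iff]
  have pos : ∀ (P : Prop) [Decidable P], 0 ≤ (if P then 1 else 0 : ℕ) := fun _ _ => Nat.zero_le _
  by_cases c1 : q ∣ 2 * B + 1
  · have c1' := d1.1 c1
    have c3 : ¬ q ∣ 2 * B + 3 := by rw [d3]; omega
    simp only [c1, c3, true_and, false_and, if_true, if_false]
    by_cases hab : α = β
    · have := d5 hab
      simp only [this, if_true]
      omega
    · have := pos (q ∣ A - B)
      omega
  · by_cases c3 : q ∣ 2 * B + 3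
    · have c3' := d3.1 c3
      simp only [c1, c3, true_and, false_and, if_true, if_false]
      by_cases hab : α = β
      · have := d5 hab
        simp only [this, if_true]
        omega
      · by_cases hq2 : 2 * α + 1 = q
        · have := d6 hq2
          simp only [this, if_true]
          omega
        · omega
    · simp only [c1, c3, false_and, if_false]
      omega


/-- the divisibility with `q`-factorials -/
theorem qsharp_fac {A B : ℕ} (hAB : B ≤ A) :
    qint (2 * B + 1) * qint (2 * B + 3) * qfac (2 * B) * qfac A * qfac (A - B) ∣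
      qint (Nat.gcd (2 * B + 1) (A - B)) * qint (Nat.gcd (2 * B + 3) (A - B)) *
        qint (Nat.gcd (2 * B + 3) (2 * A + 1)) * qfac (2 * A) * qfac B := by
  have p1 : 0 < Nat.gcd (2 * B + 1) (A - B) := Nat.gcd_pos_of_pos_left _ (by omega)
  have p2 : 0 < Nat.gcd (2 * B + 3) (A - B) := Nat.gcd_pos_of_pos_left _ (by omega)
  have p3 : 0 < Nat.gcd (2 * B + 3) (2 * A + 1) := Nat.gcd_pos_of_pos_left _ (by omega)
  have l1 : Nat.gcd (2 * B + 1) (A - B) ≤ 2 * B + 1 := Nat.gcd_le_left _ (by omega)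
  have l2 : Nat.gcd (2 * B + 3) (A - B) ≤ 2 * B + 3 := Nat.gcd_le_left _ (by omega)
  have l3 : Nat.gcd (2 * B + 3) (2 * A + 1) ≤ 2 * B + 3 := Nat.gcd_le_left _ (by omega)
  set N := 2 * A + 3 with hN
  have e1 := (((((rep_qint (N := N) (k := 2 * B + 1) (by omega) (by omega)).mul
    (rep_qint (N := N) (k := 2 * B + 3) (by omega) (by omega))).mul
    (rep_qfac (N := N) (m := 2 * B) (by omega))).mul (rep_qfac (N := N) (m := A) (by omega))).mul
    (rep_qfac (N := N) (m := A - B) (by omega)))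
  have e2 := (((((rep_qint (N := N) p1 (by omega)).mul
    (rep_qint (N := N) p2 (by omega))).mul (rep_qint (N := N) p3 (by omega))).mul
    (rep_qfac (N := N) (m := 2 * A) (by omega))).mul (rep_qfac (N := N) (m := B) (by omega)))
  exact e1.dvd e2 fun d hd => termwise hd hAB

/-- from `q`-factorials to Gaussian coefficients -/
theorem to_binom {A B : ℕ} (hAB : B ≤ A) {G H : ℤ[X]}
    (h : H * qfac (2 * B) * qfac A * qfac (A - B) ∣ G * qfac (2 * A) * qfac B) :
    H * qbinom (2 * B) B ∣ G * qbinom (2 * A) A * qbinom A B := by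
  have e1 := qbinom_mul (2 * B) B B (by omega)
  have e2 := qbinom_mul (2 * A) A A (by omega)
  have e3 := qbinom_mul A B (A - B) (by omega)
  have hM : qfac B * qfac B * qfac A * qfac (A - B) ≠ 0 :=
    mul_ne_zero (mul_ne_zero (mul_ne_zero (qfac_ne _) (qfac_ne _)) (qfac_ne _)) (qfac_ne _)
  refine (mul_dvd_mul_iff_right hM).1 ?_
  have l : H * qbinom (2 * B) B * (qfac B * qfac B * qfac A * qfac (A - B)) =
      H * qfac (2 * B) * qfac A * qfac (A - B) := by
    linear_combination H * qfac A * qfac (A - B) * e1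
  have r : G * qbinom (2 * A) A * qbinom A B * (qfac B * qfac B * qfac A * qfac (A - B)) =
      G * qfac (2 * A) * qfac B := by
    linear_combination G * qfac B * e2 + G * qbinom (2 * A) A * qfac B * qfac A * e3
  rw [l, r]
  exact h

/-- the three gcd's against `3 (a - b)` and `3 a - b` -/
theorem gcd_bounds {a b n : ℕ} (hab : b ≤ a) :
    Nat.gcd (2 * (b * n) + 1) (a * n - b * n) ∣ 3 * (a - b) ∧
    Nat.gcd (2 * (b * n) + 3) (a * n - b * n) ∣ 3 * (a - b) ∧
    Nat.gcd (2 * (b * n) + 3) (2 * (a * n) + 1) ∣ 3 * a - b ∧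
    Nat.Coprime (Nat.gcd (2 * (b * n) + 1) (a * n - b * n))
      (Nat.gcd (2 * (b * n) + 3) (a * n - b * n)) := by
  have hsub : a * n - b * n = (a - b) * n := (Nat.sub_mul a b n).symm
  refine ⟨?_, ?_, ?_, ?_⟩
  · rw [hsub]
    have hc : Nat.Coprime (2 * (b * n) + 1) n := by
      have h1 : Nat.Coprime (2 * (b * n) + 1) (2 * (b * n)) := by
        rw [Nat.coprime_self_add_left]
        exact Nat.coprime_one_left _
      exact h1.coprime_dvd_right ⟨2 * b, by ring⟩
    exact (Nat.Coprime.dvd_of_dvd_mul_right (Nat.Coprime.coprime_dvd_left (Nat.gcd_dvd_left _ _) hc)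
      (Nat.gcd_dvd_right _ _)).trans (Dvd.intro_left _ rfl)
  · rw [hsub]
    set g := Nat.gcd (2 * (b * n) + 3) ((a - b) * n) with hg
    have g1 : g ∣ 2 * (b * n) + 3 := Nat.gcd_dvd_left _ _
    have g2 : g ∣ (a - b) * n := Nat.gcd_dvd_right _ _
    have g3 : g ∣ (2 * (b * n) + 3) * (a - b) := g1.mul_right _
    have g4 : g ∣ 2 * b * ((a - b) * n) := g2.mul_left _
    have e : (2 * (b * n) + 3) * (a - b) = 2 * b * ((a - b) * n) + 3 * (a - b) := by ring
    rw [e] at g3
    exact (Nat.dvd_add_right g4).1 g3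
  · set g := Nat.gcd (2 * (b * n) + 3) (2 * (a * n) + 1) with hg
    have g1 : g ∣ 2 * (b * n) + 3 := Nat.gcd_dvd_left _ _
    have g2 : g ∣ 2 * (a * n) + 1 := Nat.gcd_dvd_right _ _
    have hc : Nat.Coprime (2 * (a * n) + 1) (2 * n) := by
      have h1 : Nat.Coprime (2 * (a * n) + 1) (2 * (a * n)) := by
        rw [Nat.coprime_self_add_left]
        exact Nat.coprime_one_left _
      exact h1.coprime_dvd_right ⟨a, by ring⟩
    have hc' : Nat.Coprime g (2 * n) := Nat.Coprime.coprime_dvd_left g2 hc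
    refine hc'.dvd_of_dvd_mul_left ?_
    have g3 : g ∣ 3 * (2 * (a * n) + 1) := g2.mul_left _
    have hle : b ≤ 3 * a := by omega
    have e : 3 * (2 * (a * n) + 1) = 2 * n * (3 * a - b) + (2 * (b * n) + 3) := by
      have h5 : 3 * a = (3 * a - b) + b := by omega
      have h6 : 3 * (2 * (a * n) + 1) = 2 * n * (3 * a) + 3 := by ring
      rw [h6]
      nth_rewrite 1 [h5]
      ring
    rw [e] at g3
    exact (Nat.dvd_add_left g1).1 g3
  · have h1 : Nat.Coprime (2 * (b * n) + 1) (2 * (b * n) + 3) := by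
      rw [show 2 * (b * n) + 3 = 2 + (2 * (b * n) + 1) by ring, Nat.coprime_add_self_right]
      rw [Nat.coprime_two_right]
      exact ⟨b * n, rfl⟩
    exact Nat.Coprime.coprime_dvd_left (Nat.gcd_dvd_left _ _)
      (Nat.Coprime.coprime_dvd_right (Nat.gcd_dvd_left _ _) h1)

theorem gcd_product {a b n : ℕ} (hab : b < a) :
    qint (Nat.gcd (2 * (b * n) + 1) (a * n - b * n)) * qint (Nat.gcd (2 * (b * n) + 3) (a * n - b * n)) *
      qint (Nat.gcd (2 * (b * n) + 3) (2 * (a * n) + 1)) ∣ qint (3 * (a - b)) * qint (3 * a - b) := by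
  obtain ⟨k1, k2, k3, k4⟩ := gcd_bounds (n := n) hab.le
  set g1 := Nat.gcd (2 * (b * n) + 1) (a * n - b * n)
  set g2 := Nat.gcd (2 * (b * n) + 3) (a * n - b * n)
  set g3 := Nat.gcd (2 * (b * n) + 3) (2 * (a * n) + 1)
  have p1 : 0 < g1 := Nat.gcd_pos_of_pos_left _ (by omega)
  have p2 : 0 < g2 := Nat.gcd_pos_of_pos_left _ (by omega)
  have p3 : 0 < g3 := Nat.gcd_pos_of_pos_left _ (by omega)
  have l1 := Nat.le_of_dvd (by omega) k1
  have l2 := Nat.le_of_dvd (by omega) k2
  have l3 := Nat.le_of_dvd (by omega) k3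
  have e1 := ((rep_qint (N := 3 * a) p1 (by omega)).mul (rep_qint (N := 3 * a) p2 (by omega))).mul
    (rep_qint (N := 3 * a) p3 (by omega))
  have e2 := (rep_qint (N := 3 * a) (k := 3 * (a - b)) (by omega) (by omega)).mul
    (rep_qint (N := 3 * a) (k := 3 * a - b) (by omega) (by omega))
  refine e1.dvd e2 fun d hd => ?_
  have h12 : ¬ (d ∣ g1 ∧ d ∣ g2) := by
    rintro ⟨h1, h2⟩
    have := Nat.dvd_gcd h1 h2
    rw [k4] at this
    have := Nat.le_of_dvd one_pos this
    omega
  have h3 : d ∣ g3 → d ∣ 3 * a - b := fun h => h.trans k3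
  have h1 : d ∣ g1 → d ∣ 3 * (a - b) := fun h => h.trans k1
  have h2 : d ∣ g2 → d ∣ 3 * (a - b) := fun h => h.trans k2
  have i1 : (if d ∣ g1 then 1 else 0) + (if d ∣ g2 then 1 else 0) ≤ (if d ∣ 3 * (a - b) then 1 else 0) := by
    by_cases c1 : d ∣ g1
    · have c2 : ¬ d ∣ g2 := fun c2 => h12 ⟨c1, c2⟩
      rw [if_pos c1, if_neg c2, if_pos (h1 c1)]
    · by_cases c2 : d ∣ g2
      · rw [if_neg c1, if_pos c2, if_pos (h2 c2)]
      · rw [if_neg c1, if_neg c2]
        exact Nat.zero_le _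
  have i2 : (if d ∣ g3 then 1 else 0) ≤ (if d ∣ 3 * a - b then 1 else 0) := by
    by_cases c3 : d ∣ g3
    · rw [if_pos c3, if_pos (h3 c3)]
    · rw [if_neg c3]
      exact Nat.zero_le _
  exact Nat.add_le_add i1 i2

/-- **A `q`-analogue of Amdeberhan's divisibility.** -/
theorem result :
    -- the refined `q`-divisibility for all `A ≥ B ≥ 0`
    (∀ A B : ℕ, B ≤ A →
      qint (2 * B + 1) * qint (2 * B + 3) * qbinom (2 * B) B ∣
        qint (Nat.gcd (2 * B + 1) (A - B)) * qint (Nat.gcd (2 * B + 3) (A - B)) *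
          qint (Nat.gcd (2 * B + 3) (2 * A + 1)) * qbinom (2 * A) A * qbinom A B) ∧
    -- the `q`-analogue of the conjecture
    (∀ a b n : ℕ, b < a →
      qint (2 * b * n + 1) * qint (2 * b * n + 3) * qbinom (2 * b * n) (b * n) ∣
        qint (3 * (a - b)) * qint (3 * a - b) * qbinom (2 * a * n) (a * n) * qbinom (a * n) (b * n)) ∧
    -- the conjecture
    (∀ a b n : ℕ, b < a →
      (2 * b * n + 1) * (2 * b * n + 3) * (2 * b * n).choose (b * n) ∣
        3 * (a - b) * (3 * a - b) * (2 * a * n).choose (a * n) * (a * n).choose (b * n)) := by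
  have h1 : ∀ A B : ℕ, B ≤ A →
      qint (2 * B + 1) * qint (2 * B + 3) * qbinom (2 * B) B ∣
        qint (Nat.gcd (2 * B + 1) (A - B)) * qint (Nat.gcd (2 * B + 3) (A - B)) *
          qint (Nat.gcd (2 * B + 3) (2 * A + 1)) * qbinom (2 * A) A * qbinom A B :=
    fun A B hAB => to_binom hAB (qsharp_fac hAB)
  have h2 : ∀ a b n : ℕ, b < a →
      qint (2 * b * n + 1) * qint (2 * b * n + 3) * qbinom (2 * b * n) (b * n) ∣
        qint (3 * (a - b)) * qint (3 * a - b) * qbinom (2 * a * n) (a * n) * qbinom (a * n) (b * n) := by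
    intro a b n hab
    have h := h1 (a * n) (b * n) (Nat.mul_le_mul_right n hab.le)
    rw [show 2 * b * n = 2 * (b * n) by ring, show 2 * a * n = 2 * (a * n) by ring]
    exact h.trans (mul_dvd_mul (mul_dvd_mul (gcd_product hab) dvd_rfl) dvd_rfl)
  refine ⟨h1, h2, fun a b n hab => ?_⟩
  obtain ⟨Q, hQ⟩ := h2 a b n hab
  have h3 := congrArg (eval (1 : ℤ)) hQ
  simp only [eval_mul, eval_qint, eval_qbinom] at h3
  have h4 : (((2 * b * n + 1) * (2 * b * n + 3) * (2 * b * n).choose (b * n) : ℕ) : ℤ) ∣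
      ((3 * (a - b) * (3 * a - b) * (2 * a * n).choose (a * n) * (a * n).choose (b * n) : ℕ) : ℤ) := by
    refine ⟨Q.eval 1, ?_⟩
    rw [← Nat.cast_mul, ← Nat.cast_mul, ← Nat.cast_mul] at h3
    rw [← Nat.cast_mul, ← Nat.cast_mul] at h3
    exact h3
  exact_mod_cast h4

end Pool.Agent.Results.MP_698530_nt.QAnalogue
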